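import Mathlib
import Pool.Agent.N893.SM.M2
import Pool.Agent.N909.TF.Free

set_option autoImplicit false
set_option linter.unusedSectionVars false
set_option linter.unusedVariables false

/-! # Mean square over the residue classes in sequential models: the cross term -/

open MeasureTheory Filter Set
open scoped ENNReal Topology

namespace Pool.Agent.N944.MV

open Pool.Agent.R528.RM Pool.Agent.N893.SM Pool.Agent.N909.TF

variable {Ω : Type} {m0 : MeasurableSpace Ω} {μ : Measure Ω} [IsProbabilityMeasure μ]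
  {ℱ : Filtration ℕ m0} {A : ℕ → Set Ω}

/-- weighted deviation in one class -/
noncomputable def dv (μ : Measure Ω) (ℱ : Filtration ℕ m0) (A : ℕ → Set Ω) (x q a : ℕ) (ω : Ω) : ℝ :=
  SA (fun n => Real.log n * dif μ ℱ A ω n) x q a

lemma dv_meas (hA : ∀ n, MeasurableSet[ℱ n] (A n)) (k q a : ℕ) :
    StronglyMeasurable[ℱ k] (dv μ ℱ A k q a) := by
  have h0 : dv μ ℱ A k q a = ∑ n ∈ (Finset.Icc 1 k).filter (fun n => n ≡ a [MOD q]),
      fun ω => Real.log n * (In A n ω - dens μ ℱ A (n - 1) ω) := by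
    funext ω
    rw [Finset.sum_apply]
    rfl
  rw [h0]
  refine Finset.stronglyMeasurable_sum _ fun n hn => ?_
  have h1 := Finset.mem_Icc.1 (Finset.mem_filter.1 hn).1
  exact ((In_meas hA h1.2).sub ((dens_meas (n - 1)).mono (ℱ.mono (by omega)))).const_mul _

/-- scaled and truncated weights -/
noncomputable def wt (μ : Measure Ω) (ℱ : Filtration ℕ m0) (A : ℕ → Set Ω) (s R : ℝ) (q k : ℕ) (ω : Ω) : ℝ :=
  min 1 (max 0 (s * (Real.log ((k + 1 : ℕ) : ℝ) * dv μ ℱ A k q (k + 1) ω / R)))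

lemma wt_meas (hA : ∀ n, MeasurableSet[ℱ n] (A n)) (s R : ℝ) (q k : ℕ) :
    StronglyMeasurable[ℱ k] (wt μ ℱ A s R q k) := by
  have h1 : StronglyMeasurable[ℱ k] (fun ω => s * (Real.log ((k + 1 : ℕ) : ℝ) * dv μ ℱ A k q (k + 1) ω / R)) := by
    have := ((dv_meas (μ := μ) (ℱ := ℱ) hA k q (k + 1)).const_mul (Real.log ((k + 1 : ℕ) : ℝ)))
    have h2 := (this.mul_const (R⁻¹)).const_mul s
    simpa only [div_eq_mul_inv] using h2
  have hc : Continuous (fun y : ℝ => min 1 (max 0 y)) := by fun_prop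
  exact hc.comp_stronglyMeasurable h1

lemma wt_mem (s R : ℝ) (q k : ℕ) (ω : Ω) : 0 ≤ wt μ ℱ A s R q k ω ∧ wt μ ℱ A s R q k ω ≤ 1 :=
  ⟨le_min zero_le_one (le_max_left _ _), min_le_left _ _⟩

/-- the truncation level -/
noncomputable def RR (K x q : ℕ) : ℝ := (K : ℝ) * (√((x : ℝ) / q) * Real.log x + Real.log x ^ 2) * Real.log x

/-- the parameter -/
noncomputable def tt (x : ℕ) : ℝ := Real.log x / √(x : ℝ)

/-- the events -/
theorem errX (hA : ∀ n, MeasurableSet[ℱ n] (A n)) :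
    ∀ᵐ ω ∂μ, ∀ᶠ x : ℕ in atTop, ∀ q K : ℕ, 1 ≤ q → q ≤ x → 1 ≤ K → K ≤ x → ∀ s : ℝ, s = 1 ∨ s = -1 →
      Ex μ ℱ A (tt x) (wt μ ℱ A s (RR K x q) q) x ω < 5 * Real.log x ∧
      Ex μ ℱ A (-tt x) (wt μ ℱ A s (RR K x q) q) x ω < 5 * Real.log x := by
  set E : ℝ → ℝ → ℕ → ℕ → ℕ → Set Ω := fun s t x q K =>
    {ω | 5 * Real.log x ≤ Ex μ ℱ A t (wt μ ℱ A s (RR K x q) q) x ω} with hE
  set Bad : ℕ → Set Ω := fun x => ⋃ q ∈ Finset.Icc 1 x, ⋃ K ∈ Finset.Icc 1 x,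
    ((E 1 (tt x) x q K ∪ E 1 (-tt x) x q K) ∪ (E (-1) (tt x) x q K ∪ E (-1) (-tt x) x q K)) with hBad
  have hsum : Summable (fun n : ℕ => 4 * ((n : ℝ) ^ 2)⁻¹) := (Real.summable_nat_pow_inv.2 (by norm_num)).mul_left 4
  have hb : ∀ᶠ n in atTop, μ.real (Bad n) ≤ 4 * ((n : ℝ) ^ 2)⁻¹ := by
    filter_upwards [eventually_ge_atTop 1] with x hx
    have hx0 : (1 : ℝ) ≤ x := by exact_mod_cast hx
    have hxp : (0 : ℝ) < x := by linarith
    have hexp : Real.exp (-(5 * Real.log x)) = ((x : ℝ) ^ 5)⁻¹ := by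
      rw [exp_log_rpow hx]
      congr 1
      exact_mod_cast Real.rpow_natCast (x : ℝ) 5
    have h0 : ∀ (s t : ℝ) (q K : ℕ), μ.real (E s t x q K) ≤ ((x : ℝ) ^ 5)⁻¹ := by
      intro s t q K
      have := Ex_tail (μ := μ) hA t (wt μ ℱ A s (RR K x q) q) (fun k => wt_meas hA s _ q k)
        (fun k ω => wt_mem s _ q k ω) x (5 * Real.log x)
      rwa [hexp] at this
    have h1 : ∀ q ∈ Finset.Icc 1 x, ∀ K ∈ Finset.Icc 1 x, μ.real
        ((E 1 (tt x) x q K ∪ E 1 (-tt x) x q K) ∪ (E (-1) (tt x) x q K ∪ E (-1) (-tt x) x q K)) ≤ 4 * ((x : ℝ) ^ 5)⁻¹ := by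
      intro q hq K hK
      have u0 := measureReal_union_le (μ := μ) (E 1 (tt x) x q K ∪ E 1 (-tt x) x q K) (E (-1) (tt x) x q K ∪ E (-1) (-tt x) x q K)
      have u1 := measureReal_union_le (μ := μ) (E 1 (tt x) x q K) (E 1 (-tt x) x q K)
      have u2 := measureReal_union_le (μ := μ) (E (-1) (tt x) x q K) (E (-1) (-tt x) x q K)
      linarith [h0 1 (tt x) q K, h0 1 (-tt x) q K, h0 (-1) (tt x) q K, h0 (-1) (-tt x) q K]
    have h2 : μ.real (Bad x) ≤ ∑ q ∈ Finset.Icc 1 x, ∑ K ∈ Finset.Icc 1 x, 4 * ((x : ℝ) ^ 5)⁻¹ :=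
      (measureReal_biUnion_finset_le _ _).trans (Finset.sum_le_sum fun q hq =>
        (measureReal_biUnion_finset_le _ _).trans (Finset.sum_le_sum fun K hK => h1 q hq K hK))
    refine h2.trans ?_
    rw [Finset.sum_const, Finset.sum_const, Nat.card_Icc, Nat.add_sub_cancel, nsmul_eq_mul, nsmul_eq_mul]
    have e1 : (x : ℝ) * (x * (4 * ((x : ℝ) ^ 5)⁻¹)) = 4 * ((x : ℝ) ^ 3)⁻¹ := by
      field_simp
    rw [e1]
    have e2 : ((x : ℝ) ^ 3)⁻¹ ≤ ((x : ℝ) ^ 2)⁻¹ := inv_anti₀ (by positivity) (pow_le_pow_right₀ hx0 (by norm_num))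
    linarith
  filter_upwards [bc_real (μ := μ) hsum hb] with ω hω
  filter_upwards [hω] with x hx q K hq hqx hK hKx s hs
  have hmem : ∀ S : Set Ω, S ⊆ ((E 1 (tt x) x q K ∪ E 1 (-tt x) x q K) ∪ (E (-1) (tt x) x q K ∪ E (-1) (-tt x) x q K)) → ω ∉ S := by
    intro S hS hcon
    apply hx
    simp only [hBad, Set.mem_iUnion]
    exact ⟨q, Finset.mem_Icc.2 ⟨hq, hqx⟩, K, Finset.mem_Icc.2 ⟨hK, hKx⟩, hS hcon⟩
  rcases hs with rfl | rfl
  · exact ⟨not_le.1 (hmem (E 1 (tt x) x q K) (fun z hz => Or.inl (Or.inl hz))),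
      not_le.1 (hmem (E 1 (-tt x) x q K) (fun z hz => Or.inl (Or.inr hz)))⟩
  · exact ⟨not_le.1 (hmem (E (-1) (tt x) x q K) (fun z hz => Or.inr (Or.inl hz))),
      not_le.1 (hmem (E (-1) (-tt x) x q K) (fun z hz => Or.inr (Or.inr hz)))⟩

/-- from the exponential bounds to the two-sided bound -/
lemma Ex_two {w : ℕ → Ω → ℝ} {t L : ℝ} (ht0 : 0 < t) (ht1 : t ≤ 1) {M : ℕ} {ω : Ω}
    (hD : 0 ≤ SD μ ℱ A w M ω) (h1 : Ex μ ℱ A t w M ω < L) (h2 : Ex μ ℱ A (-t) w M ω < L) :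
    |SI A w M ω - SD μ ℱ A w M ω| ≤ t * SD μ ℱ A w M ω + L / t := by
  rw [Ex_eq] at h1 h2
  set I := SI A w M ω
  set D := SD μ ℱ A w M ω
  have e1 := Real.abs_exp_sub_one_sub_id_le (x := t) (by rw [abs_of_pos ht0]; exact ht1)
  have e2 := Real.abs_exp_sub_one_sub_id_le (x := -t) (by rw [abs_neg, abs_of_pos ht0]; exact ht1)
  have f1 := (abs_le.1 e1).2
  have f2 := (abs_le.1 e2).1
  have f3 := (abs_le.1 e2).2
  have g1 : (Real.exp t - 1) * D ≤ (t + t ^ 2) * D := mul_le_mul_of_nonneg_right (by linarith) hD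
  have g2 : (Real.exp (-t) - 1) * D ≤ (-t + t ^ 2) * D := mul_le_mul_of_nonneg_right (by nlinarith) hD
  rw [abs_le]
  constructor
  · have : t * (-(t * D + L / t)) ≤ t * (I - D) := by
      have : t * (L / t) = L := by field_simp
      nlinarith
    exact le_of_mul_le_mul_left this ht0
  · have : t * (I - D) ≤ t * (t * D + L / t) := by
      have : t * (L / t) = L := by field_simp
      nlinarith
    exact le_of_mul_le_mul_left this ht0

lemma cls {q : ℕ} (hq : 1 ≤ q) (n : ℕ) :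
    (Finset.Icc 1 q).filter (fun a => n + 1 ≡ a [MOD q]) = {n % q + 1} := by
  ext a
  rw [Finset.mem_filter, Finset.mem_Icc, Finset.mem_singleton]
  constructor
  · rintro ⟨⟨h1, h2⟩, h3⟩
    obtain ⟨b, rfl⟩ : ∃ b, a = b + 1 := ⟨a - 1, by omega⟩
    have h4 : n ≡ b [MOD q] := Nat.ModEq.add_right_cancel' 1 h3
    have h5 : b % q = n % q := h4.symm
    rw [Nat.mod_eq_of_lt (by omega)] at h5
    omega
  · rintro rfl
    have := Nat.mod_lt n hq
    refine ⟨⟨by omega, by omega⟩, ?_⟩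
    exact (Nat.mod_modEq n q).symm.add_right 1

lemma SA_succ (f : ℕ → ℝ) (x q a : ℕ) : SA f (x + 1) q a = SA f x q a + if x + 1 ≡ a [MOD q] then f (x + 1) else 0 := by
  unfold SA
  rw [Finset.sum_filter, Finset.sum_filter, Finset.sum_Icc_succ_top (by omega)]

lemma SA_congr (f : ℕ → ℝ) {x q a b : ℕ} (h : a ≡ b [MOD q]) : SA f x q a = SA f x q b := by
  unfold SA
  congr 1
  refine Finset.filter_congr fun n _ => ?_
  exact ⟨fun h1 => h1.trans h, fun h1 => h1.trans h.symm⟩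

/-- **the mean square as a sum over time** -/
lemma sq_sum (f : ℕ → ℝ) {q : ℕ} (hq : 1 ≤ q) (x : ℕ) :
    ∑ a ∈ Finset.Icc 1 q, SA f x q a ^ 2 =
      ∑ k ∈ Finset.range x, (2 * (f (k + 1) * SA f k q (k + 1)) + f (k + 1) ^ 2) := by
  induction x with
  | zero => simp [SA]
  | succ x ih =>
    rw [Finset.sum_range_succ, ← ih]
    have h1 : ∀ a ∈ Finset.Icc 1 q, SA f (x + 1) q a ^ 2 = SA f x q a ^ 2 +
        if x + 1 ≡ a [MOD q] then (2 * (f (x + 1) * SA f x q (x + 1)) + f (x + 1) ^ 2) else 0 := by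
      intro a ha
      rw [SA_succ]
      split_ifs with h
      · rw [SA_congr f h]
        ring
      · ring
    rw [Finset.sum_congr rfl h1, Finset.sum_add_distrib, ← Finset.sum_filter, cls hq, Finset.sum_singleton]

end Pool.Agent.N944.MV
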