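import Mathlib
import Pool.Agent.N944.MV.A

set_option autoImplicit false
set_option linter.unusedSectionVars false
set_option linter.unusedVariables false

/-! # Mean square over the residue classes in sequential models: deterministic bounds -/

open MeasureTheory Filter Set
open scoped ENNReal Topology

namespace Pool.Agent.N944.MV

open Pool.Agent.R528.RM Pool.Agent.N893.SM Pool.Agent.N909.TF

variable {Ω : Type} {m0 : MeasurableSpace Ω} {μ : Measure Ω} [IsProbabilityMeasure μ]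
  {ℱ : Filtration ℕ m0} {A : ℕ → Set Ω}

lemma rep_cls {q a : ℕ} (hq : 1 ≤ q) : ∃ a' : ℕ, 1 ≤ a' ∧ a' ≤ q ∧ a' ≡ a [MOD q] := by
  by_cases h0 : a % q = 0
  · have h : q ≡ a [MOD q] := by
      unfold Nat.ModEq
      rw [h0, Nat.mod_self]
    exact ⟨q, hq, le_rfl, h⟩
  · exact ⟨a % q, by omega, (Nat.mod_lt a hq).le, Nat.mod_modEq a q⟩

lemma SA_ite' (f : ℕ → ℝ) (x q a : ℕ) : SA f x q a = ∑ n ∈ Finset.Icc 1 x, (if n ≡ a [MOD q] then f n else 0) := by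
  unfold SA
  rw [Finset.sum_filter]

lemma dif_one {ω : Ω} (h01 : ∀ n, 0 ≤ dens μ ℱ A n ω ∧ dens μ ℱ A n ω ≤ 1) (n : ℕ) : |dif μ ℱ A ω n| ≤ 1 := by
  unfold dif
  have k1 := h01 (n - 1)
  have k2 := In_nonneg (A := A) n ω
  have k3 := In_le (A := A) n ω
  rw [abs_le]
  constructor <;> linarith

/-- the bound for all classes with logarithmic weights -/
lemma dv_bound {ω : Ω} (h01 : ∀ n, 0 ≤ dens μ ℱ A n ω ∧ dens μ ℱ A n ω ≤ 1) {C : ℝ} (hC : 1 ≤ C)
    (hM : ∀ x q a : ℕ, 2 ≤ x → 1 ≤ q → q ≤ x → 1 ≤ a → a ≤ q →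
      |SA (dif μ ℱ A ω) x q a| ≤ C * (√((x : ℝ) / q) + Real.log x))
    (x q a : ℕ) (hx : 2 ≤ x) (hq : 1 ≤ q) (hqx : q ≤ x) :
    |dv μ ℱ A x q a ω| ≤ 2 * (C + 2) * (√((x : ℝ) / q) * Real.log x + Real.log x ^ 2) := by
  obtain ⟨a', g1, g2, g3⟩ := rep_cls (a := a) hq
  have hqr : (1 : ℝ) ≤ q := by exact_mod_cast hq
  set e : ℕ → ℝ := fun n => if n ≡ a' [MOD q] then dif μ ℱ A ω n else 0 with he'
  have hsum : ∀ n, ∑ k ∈ Finset.Icc 1 n, e k = SA (dif μ ℱ A ω) n q a' := fun n => (SA_ite' _ n q a').symm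
  have hdev : dv μ ℱ A x q a ω = ∑ k ∈ Finset.Icc 1 x, Real.log k * e k := by
    unfold dv
    rw [SA_congr _ g3.symm, SA_ite']
    refine Finset.sum_congr rfl fun n _ => ?_
    simp only [he']
    split_ifs
    · rfl
    · rw [mul_zero]
  have hJ : ∀ n, |SA (dif μ ℱ A ω) n q a'| ≤ (n : ℝ) / q + 1 := by
    intro n
    rw [SA_eq _ hq g1 g2]
    refine ((Finset.abs_sum_le_sum_abs _ _).trans (Finset.sum_le_sum fun k _ => dif_one h01 _)).trans ?_
    rw [Finset.sum_const, Finset.card_range, nsmul_eq_mul, mul_one]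
    exact (Jn_bounds hq g2).2
  have hfin := mont_log (e := e) (C := C) (M0 := 2) (by linarith) (by norm_num) hq hx hqx (fun n hn1 hnq => by
    rw [hsum]
    refine (hJ n).trans ?_
    have : (n : ℝ) / q ≤ 1 := by
      rw [div_le_one (by linarith)]
      exact_mod_cast hnq.le
    linarith) (by
    rw [hsum]
    refine (hJ 1).trans ?_
    have : ((1 : ℕ) : ℝ) / q ≤ 1 := by
      rw [div_le_one (by linarith)]
      push_cast
      exact hqr
    linarith) (fun n hn2 hnq => by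
    rw [hsum]
    exact hM n q a' hn2 hq hnq g1 g2)
  rw [hdev]
  refine hfin.trans (le_of_eq ?_)
  ring

/-- before the first member of the class -/
lemma dv_zero (ω : Ω) {k q : ℕ} (h : k < 2 ∨ k < q) : dv μ ℱ A k q (k + 1) ω = 0 := by
  unfold dv SA
  refine Finset.sum_eq_zero fun n hn => ?_
  have h1 := Finset.mem_Icc.1 (Finset.mem_filter.1 hn).1
  have h2 := (Finset.mem_filter.1 hn).2
  rcases h with h | h
  · have : n = 1 := by omega
    rw [this]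
    simp
  · exfalso
    have h3 := (Nat.modEq_iff_dvd' (show n ≤ k + 1 by omega)).1 h2
    have h4 := Nat.le_of_dvd (by omega) h3
    omega

lemma dv_all {ω : Ω} (h01 : ∀ n, 0 ≤ dens μ ℱ A n ω ∧ dens μ ℱ A n ω ≤ 1) {C : ℝ} (hC : 1 ≤ C)
    (hM : ∀ x q a : ℕ, 2 ≤ x → 1 ≤ q → q ≤ x → 1 ≤ a → a ≤ q →
      |SA (dif μ ℱ A ω) x q a| ≤ C * (√((x : ℝ) / q) + Real.log x))
    (x q k : ℕ) (hx : 2 ≤ x) (hq : 1 ≤ q) (hkx : k < x) :
    |dv μ ℱ A k q (k + 1) ω| ≤ 2 * (C + 2) * (√((x : ℝ) / q) * Real.log x + Real.log x ^ 2) := by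
  have hlog0 : 0 ≤ Real.log (x : ℝ) := Real.log_natCast_nonneg x
  have hb : 0 ≤ 2 * (C + 2) * (√((x : ℝ) / q) * Real.log x + Real.log x ^ 2) := by positivity
  by_cases h : k < 2 ∨ k < q
  · rw [dv_zero ω h, abs_zero]
    exact hb
  · push Not at h
    refine (dv_bound h01 hC hM k q (k + 1) h.1 hq h.2).trans ?_
    have hk0 : (0 : ℝ) < k := by
      have : 0 < k := by omega
      exact_mod_cast this
    have hkx' : (k : ℝ) ≤ x := by exact_mod_cast hkx.le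
    have hq0 : (0 : ℝ) < q := by exact_mod_cast hq
    have e1 : √((k : ℝ) / q) ≤ √((x : ℝ) / q) := Real.sqrt_le_sqrt (div_le_div_of_nonneg_right hkx' hq0.le)
    have e2 : Real.log (k : ℝ) ≤ Real.log x := Real.log_le_log hk0 hkx'
    have e3 : 0 ≤ Real.log (k : ℝ) := Real.log_natCast_nonneg k
    refine mul_le_mul_of_nonneg_left (add_le_add ?_ ?_) (by positivity)
    · exact mul_le_mul e1 e2 e3 (Real.sqrt_nonneg _)
    · exact pow_le_pow_left₀ e3 e2 2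

/-- `log x ≤ √x` -/
lemma log_le_sqrt (x : ℕ) (hx : 1 ≤ x) : Real.log x ≤ √(x : ℝ) := by
  have hxp : (0 : ℝ) < x := by exact_mod_cast hx
  set y := √(√(x : ℝ)) with hy
  have hy0 : 0 < y := Real.sqrt_pos.2 (Real.sqrt_pos.2 hxp)
  have h1 : y * y = √(x : ℝ) := Real.mul_self_sqrt (Real.sqrt_nonneg _)
  have h2 : Real.log y = Real.log x / 4 := by
    rw [hy, Real.log_sqrt (Real.sqrt_nonneg _), Real.log_sqrt hxp.le]
    ring
  have h3 := Real.log_le_sub_one_of_pos hy0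
  nlinarith [sq_nonneg (y - 2)]

/-- sum of all conditional probabilities -/
lemma dens_all {ω : Ω} (h01 : ∀ n, 0 ≤ dens μ ℱ A n ω ∧ dens μ ℱ A n ω ≤ 1) {B : ℝ} (hB : 1 ≤ B)
    (hd : ∀ n : ℕ, 2 ≤ n → dens μ ℱ A n ω * Real.log n ≤ B) {x : ℕ} (hx : 16 ≤ x) (hlog : 1 ≤ Real.log x) :
    ∑ k ∈ Finset.range x, dens μ ℱ A k ω ≤ 24 * B * ((x : ℝ) / Real.log x) := by
  have h := dens_sum (μ := μ) (ℱ := ℱ) (A := A) h01 hB hd (q := 1) (a := 1) (x := x) le_rfl (by omega) le_rfl le_rfl hx hlog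
  have hJ : Jn x 1 1 = x := by unfold Jn; omega
  rw [hJ] at h
  have e1 : ∑ k ∈ Finset.range x, dens μ ℱ A (1 + k * 1 - 1) ω = ∑ k ∈ Finset.range x, dens μ ℱ A k ω :=
    Finset.sum_congr rfl fun k _ => by rw [show 1 + k * 1 - 1 = k by omega]
  rw [e1] at h
  refine h.trans ?_
  have hxr : (16 : ℝ) ≤ x := by exact_mod_cast hx
  have h2 : 1 ≤ (x : ℝ) / Real.log x := by
    rw [le_div_iff₀ (by linarith), one_mul]
    have := Real.log_le_sub_one_of_pos (show (0 : ℝ) < x by linarith)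
    linarith
  simp only [Nat.cast_one, div_one]
  nlinarith

/-- **the cross term** -/
theorem cross {ω : Ω} (h01 : ∀ n, 0 ≤ dens μ ℱ A n ω ∧ dens μ ℱ A n ω ≤ 1)
    {B : ℝ} (hB : 1 ≤ B) (hd : ∀ n : ℕ, 2 ≤ n → dens μ ℱ A n ω * Real.log n ≤ B) {C : ℝ} (hC : 1 ≤ C)
    (hM : ∀ x q a : ℕ, 2 ≤ x → 1 ≤ q → q ≤ x → 1 ≤ a → a ≤ q →
      |SA (dif μ ℱ A ω) x q a| ≤ C * (√((x : ℝ) / q) + Real.log x))
    (hX : ∀ᶠ x : ℕ in atTop, ∀ q K : ℕ, 1 ≤ q → q ≤ x → 1 ≤ K → K ≤ x → ∀ s : ℝ, s = 1 ∨ s = -1 →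
      Ex μ ℱ A (tt x) (wt μ ℱ A s (RR K x q) q) x ω < 5 * Real.log x ∧
      Ex μ ℱ A (-tt x) (wt μ ℱ A s (RR K x q) q) x ω < 5 * Real.log x) :
    ∃ C' : ℝ, 0 ≤ C' ∧ ∀ᶠ x : ℕ in atTop, ∀ q : ℕ, 1 ≤ q → q ≤ x →
      |∑ k ∈ Finset.range x, 2 * ((Real.log ((k + 1 : ℕ) : ℝ) * dif μ ℱ A ω (k + 1)) * dv μ ℱ A k q (k + 1) ω)| ≤
        C' * ((x : ℝ) * Real.log x ^ 2 / √(q : ℝ) + √(x : ℝ) * Real.log x ^ 3) := by
  obtain ⟨K, hK⟩ := exists_nat_ge (2 * (C + 2))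
  have hK1 : 1 ≤ K := by
    have : (1 : ℝ) ≤ K := by linarith
    exact_mod_cast this
  refine ⟨4 * (24 * B + 5) * K, by positivity, ?_⟩
  filter_upwards [hX, eventually_ge_atTop K, eventually_ge_atTop 16, tendsto_log.eventually_ge_atTop (1 : ℝ)]
    with x hx hxK hx16 hlog q hq hqx
  have hxr : (16 : ℝ) ≤ x := by exact_mod_cast hx16
  have hxp : (0 : ℝ) < x := by linarith
  have hqr : (1 : ℝ) ≤ q := by exact_mod_cast hq
  have hqp : (0 : ℝ) < q := by linarith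
  set L := Real.log (x : ℝ) with hL
  set R := RR K x q with hR
  have hKr : (1 : ℝ) ≤ K := by exact_mod_cast hK1
  have hR0 : 0 < R := by
    rw [hR]
    unfold RR
    have : 0 < L := by linarith
    positivity
  have hs0 : 0 < √(x : ℝ) := Real.sqrt_pos.2 hxp
  have ht0 : 0 < tt x := by
    unfold tt
    positivity
  have ht1 : tt x ≤ 1 := by
    unfold tt
    rw [div_le_one hs0]
    exact log_le_sqrt x (by omega)
  -- weights
  set y : ℕ → ℝ := fun k => Real.log ((k + 1 : ℕ) : ℝ) * dv μ ℱ A k q (k + 1) ω / R with hy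
  have hyb : ∀ k ∈ Finset.range x, |y k| ≤ 1 := by
    intro k hk
    rw [Finset.mem_range] at hk
    simp only [hy]
    rw [abs_div, abs_of_pos hR0, div_le_one hR0, abs_mul, abs_of_nonneg (Real.log_natCast_nonneg _)]
    have e1 := dv_all (μ := μ) (ℱ := ℱ) (A := A) h01 hC hM x q k (by omega) hq hk
    have e2 : Real.log ((k + 1 : ℕ) : ℝ) ≤ L := Real.log_le_log (by positivity) (by exact_mod_cast hk)
    have e3 : 0 ≤ √((x : ℝ) / q) * L + L ^ 2 := by positivity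
    calc Real.log ((k + 1 : ℕ) : ℝ) * |dv μ ℱ A k q (k + 1) ω| ≤ L * (2 * (C + 2) * (√((x : ℝ) / q) * L + L ^ 2)) :=
          mul_le_mul e2 e1 (abs_nonneg _) (by linarith)
      _ ≤ L * (K * (√((x : ℝ) / q) * L + L ^ 2)) :=
          mul_le_mul_of_nonneg_left (mul_le_mul_of_nonneg_right hK e3) (by linarith)
      _ = R := by rw [hR]; unfold RR; ring
  have hw : ∀ k ∈ Finset.range x, y k = wt μ ℱ A 1 R q k ω - wt μ ℱ A (-1) R q k ω := by
    intro k hk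
    have h := abs_le.1 (hyb k hk)
    have e1 : wt μ ℱ A 1 R q k ω = max 0 (y k) := by
      unfold wt
      rw [one_mul]
      exact min_eq_right (max_le zero_le_one h.2)
    have e2 : wt μ ℱ A (-1) R q k ω = max 0 (-(y k)) := by
      unfold wt
      rw [neg_one_mul]
      exact min_eq_right (max_le zero_le_one (by linarith [h.1]))
    rw [e1, e2]
    rcases le_total 0 (y k) with h0 | h0
    · rw [max_eq_right h0, max_eq_left (by linarith)]
      ring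
    · rw [max_eq_left h0, max_eq_right (by linarith)]
      ring
  have hDs := dens_all (μ := μ) (ℱ := ℱ) (A := A) h01 hB hd hx16 hlog
  have hone : ∀ s : ℝ, s = 1 ∨ s = -1 → |SI A (wt μ ℱ A s R q) x ω - SD μ ℱ A (wt μ ℱ A s R q) x ω| ≤
      (24 * B + 5) * √(x : ℝ) := by
    intro s hs
    have hD0 : 0 ≤ SD μ ℱ A (wt μ ℱ A s R q) x ω :=
      Finset.sum_nonneg fun k _ => mul_nonneg (wt_mem s R q k ω).1 (h01 k).1
    have hD1 : SD μ ℱ A (wt μ ℱ A s R q) x ω ≤ 24 * B * ((x : ℝ) / L) := by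
      refine le_trans (Finset.sum_le_sum fun k _ => ?_) hDs
      exact mul_le_of_le_one_left (h01 k).1 (wt_mem s R q k ω).2
    obtain ⟨g1, g2⟩ := hx q K hq hqx hK1 hxK s hs
    refine (Ex_two ht0 ht1 hD0 g1 g2).trans ?_
    have e1 : tt x * SD μ ℱ A (wt μ ℱ A s R q) x ω ≤ tt x * (24 * B * ((x : ℝ) / L)) := mul_le_mul_of_nonneg_left hD1 ht0.le
    have hss : √(x : ℝ) * √(x : ℝ) = x := Real.mul_self_sqrt hxp.le
    have e2 : tt x * (24 * B * ((x : ℝ) / L)) = 24 * B * √(x : ℝ) := by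
      unfold tt
      rw [← hL]
      have hL0 : L ≠ 0 := by linarith
      field_simp
      nlinarith
    have e3 : 5 * L / tt x = 5 * √(x : ℝ) := by
      unfold tt
      rw [← hL]
      have hL0 : L ≠ 0 := by linarith
      field_simp
    linarith
  have hsplit : ∑ k ∈ Finset.range x, 2 * ((Real.log ((k + 1 : ℕ) : ℝ) * dif μ ℱ A ω (k + 1)) * dv μ ℱ A k q (k + 1) ω) =
      2 * R * ((SI A (wt μ ℱ A 1 R q) x ω - SD μ ℱ A (wt μ ℱ A 1 R q) x ω) -
        (SI A (wt μ ℱ A (-1) R q) x ω - SD μ ℱ A (wt μ ℱ A (-1) R q) x ω)) := by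
    unfold SI SD
    rw [← Finset.sum_sub_distrib, ← Finset.sum_sub_distrib, ← Finset.sum_sub_distrib, Finset.mul_sum]
    refine Finset.sum_congr rfl fun k hk => ?_
    have e1 : Real.log ((k + 1 : ℕ) : ℝ) * dv μ ℱ A k q (k + 1) ω = R * y k := by
      simp only [hy]
      field_simp
    have e2 : dif μ ℱ A ω (k + 1) = (A (k + 1)).indicator (fun _ => (1 : ℝ)) ω - dens μ ℱ A k ω := rfl
    rw [e2]
    calc 2 * (Real.log ((k + 1 : ℕ) : ℝ) * ((A (k + 1)).indicator (fun _ => (1 : ℝ)) ω - dens μ ℱ A k ω) * dv μ ℱ A k q (k + 1) ω)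
        = 2 * ((A (k + 1)).indicator (fun _ => (1 : ℝ)) ω - dens μ ℱ A k ω) * (Real.log ((k + 1 : ℕ) : ℝ) * dv μ ℱ A k q (k + 1) ω) := by ring
      _ = 2 * ((A (k + 1)).indicator (fun _ => (1 : ℝ)) ω - dens μ ℱ A k ω) * (R * (wt μ ℱ A 1 R q k ω - wt μ ℱ A (-1) R q k ω)) := by
          rw [e1, hw k hk]
      _ = _ := by ring
  rw [hsplit, abs_mul, abs_of_pos (by linarith : 0 < 2 * R)]
  have h3 := (abs_sub _ _).trans (add_le_add (hone 1 (Or.inl rfl)) (hone (-1) (Or.inr rfl)))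
  refine (mul_le_mul_of_nonneg_left h3 (by linarith)).trans (le_of_eq ?_)
  have hsq : √((x : ℝ) / q) * √(x : ℝ) = x / √(q : ℝ) := by
    rw [Real.sqrt_div hxp.le, div_mul_eq_mul_div, Real.mul_self_sqrt hxp.le]
  rw [hR]
  unfold RR
  rw [← hL]
  calc 2 * (↑K * (√((x : ℝ) / q) * L + L ^ 2) * L) * ((24 * B + 5) * √(x : ℝ) + (24 * B + 5) * √(x : ℝ))
      = 4 * (24 * B + 5) * K * ((√((x : ℝ) / q) * √(x : ℝ)) * L ^ 2 + √(x : ℝ) * L ^ 3) := by ring
    _ = _ := by rw [hsq]; ring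

end Pool.Agent.N944.MV
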