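import Mathlib
import Pool.Agent.N944.MV.B

set_option autoImplicit false
set_option linter.unusedSectionVars false
set_option linter.unusedVariables false

/-! # Mean square over the residue classes in sequential models: the main theorem -/

open MeasureTheory Filter Set
open scoped ENNReal Topology

namespace Pool.Agent.N944.MV

open Pool.Agent.R528.RM Pool.Agent.N893.SM Pool.Agent.N909.TF

variable {Ω : Type} {m0 : MeasurableSpace Ω} {μ : Measure Ω} [IsProbabilityMeasure μ]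
  {ℱ : Filtration ℕ m0} {A : ℕ → Set Ω}

lemma Icc_range (F : ℕ → ℝ) (x : ℕ) : ∑ n ∈ Finset.Icc 1 x, F n = ∑ k ∈ Finset.range x, F (k + 1) := by
  induction x with
  | zero => simp
  | succ x ih => rw [Finset.sum_Icc_succ_top (by omega), ih, Finset.sum_range_succ]

lemma In_or (n : ℕ) (ω : Ω) : In A n ω = 0 ∨ In A n ω = 1 := by
  unfold In
  by_cases h : ω ∈ A n
  · exact Or.inr (indicator_of_mem h _)
  · exact Or.inl (indicator_of_notMem h _)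

/-- the sum of `log² n` over the chosen `n ≤ x` -/
noncomputable def SS (A : ℕ → Set Ω) (x : ℕ) (ω : Ω) : ℝ := ∑ n ∈ Finset.Icc 1 x, Real.log n ^ 2 * In A n ω

/-- the number of the chosen integers -/
lemma count_le {ω : Ω} (h01 : ∀ n, 0 ≤ dens μ ℱ A n ω ∧ dens μ ℱ A n ω ≤ 1)
    {B : ℝ} (hB : 1 ≤ B) (hd : ∀ n : ℕ, 2 ≤ n → dens μ ℱ A n ω * Real.log n ≤ B) {C : ℝ} (hC : 1 ≤ C)
    (hM : ∀ x q a : ℕ, 2 ≤ x → 1 ≤ q → q ≤ x → 1 ≤ a → a ≤ q →
      |SA (dif μ ℱ A ω) x q a| ≤ C * (√((x : ℝ) / q) + Real.log x)) {x : ℕ} (hx : 16 ≤ x) (hlog : 1 ≤ Real.log x) :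
    Real.log x * ∑ k ∈ Finset.range x, In A (k + 1) ω ≤ (24 * B + 2 * C) * x := by
  have hxr : (16 : ℝ) ≤ x := by exact_mod_cast hx
  have hxp : (0 : ℝ) < x := by linarith
  have h1 := dens_all (μ := μ) (ℱ := ℱ) (A := A) h01 hB hd hx hlog
  have h2 := hM x 1 1 (by omega) le_rfl (by omega) le_rfl le_rfl
  have h3 : SA (dif μ ℱ A ω) x 1 1 = ∑ k ∈ Finset.range x, (In A (k + 1) ω - dens μ ℱ A k ω) := by
    rw [SA_ite', Icc_range (fun n => if n ≡ 1 [MOD 1] then dif μ ℱ A ω n else 0) x]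
    refine Finset.sum_congr rfl fun n _ => ?_
    rw [if_pos Nat.modEq_one]
    rfl
  rw [h3, Finset.sum_sub_distrib] at h2
  have h4 := (abs_le.1 h2).2
  simp only [Nat.cast_one, div_one] at h4
  set L := Real.log (x : ℝ) with hL
  have h5 : L ≤ √(x : ℝ) := log_le_sqrt x (by omega)
  have h6 : √(x : ℝ) * √(x : ℝ) = x := Real.mul_self_sqrt hxp.le
  have h7 : ∑ k ∈ Finset.range x, In A (k + 1) ω ≤ 24 * B * ((x : ℝ) / L) + C * (√(x : ℝ) + L) := by linarith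
  have h8 := mul_le_mul_of_nonneg_left h7 (show 0 ≤ L by linarith)
  have h9 : L * (24 * B * ((x : ℝ) / L) + C * (√(x : ℝ) + L)) = 24 * B * x + C * (L * √(x : ℝ) + L * L) := by
    have : L ≠ 0 := by linarith
    field_simp
  rw [h9] at h8
  have h10 : L * √(x : ℝ) ≤ x := by
    calc L * √(x : ℝ) ≤ √(x : ℝ) * √(x : ℝ) := mul_le_mul_of_nonneg_right h5 (Real.sqrt_nonneg _)
      _ = x := h6
  have h11 : L * L ≤ x := by
    calc L * L ≤ √(x : ℝ) * √(x : ℝ) := mul_le_mul h5 h5 (by linarith) (Real.sqrt_nonneg _)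
      _ = x := h6
  nlinarith

/-- **the diagonal term** -/
theorem diag {ω : Ω} (h01 : ∀ n, 0 ≤ dens μ ℱ A n ω ∧ dens μ ℱ A n ω ≤ 1)
    {B : ℝ} (hB : 1 ≤ B) (hd : ∀ n : ℕ, 2 ≤ n → dens μ ℱ A n ω * Real.log n ≤ B) {C : ℝ} (hC : 1 ≤ C)
    (hM : ∀ x q a : ℕ, 2 ≤ x → 1 ≤ q → q ≤ x → 1 ≤ a → a ≤ q →
      |SA (dif μ ℱ A ω) x q a| ≤ C * (√((x : ℝ) / q) + Real.log x)) {x : ℕ} (hx : 16 ≤ x) (hlog : 1 ≤ Real.log x) :
    |∑ k ∈ Finset.range x, (Real.log ((k + 1 : ℕ) : ℝ) * dif μ ℱ A ω (k + 1)) ^ 2 - SS A x ω| ≤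
      (4 * B * (24 * B + 2 * C) + 4 * B ^ 2) * x := by
  unfold SS
  rw [Icc_range (fun n => Real.log n ^ 2 * In A n ω) x, ← Finset.sum_sub_distrib]
  have hterm : ∀ k ∈ Finset.range x, |(Real.log ((k + 1 : ℕ) : ℝ) * dif μ ℱ A ω (k + 1)) ^ 2 -
      Real.log ((k + 1 : ℕ) : ℝ) ^ 2 * In A (k + 1) ω| ≤ 4 * B * (Real.log x * In A (k + 1) ω) + 4 * B ^ 2 := by
    intro k hk
    rw [Finset.mem_range] at hk
    set l := Real.log ((k + 1 : ℕ) : ℝ) with hl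
    have hl0 : 0 ≤ l := Real.log_natCast_nonneg _
    have hlx : l ≤ Real.log x := Real.log_le_log (by positivity) (by exact_mod_cast hk)
    set p := dens μ ℱ A k ω with hp
    have hp0 : 0 ≤ p := (h01 k).1
    have hp1 : p ≤ 1 := (h01 k).2
    have hu : l * p ≤ 2 * B := by
      by_cases h2 : 2 ≤ k
      · have e1 : l ≤ 2 * Real.log k := by
          have hk0 : (0 : ℝ) < k := by
            have : 0 < k := by omega
            exact_mod_cast this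
          have e2 : ((k + 1 : ℕ) : ℝ) ≤ (k : ℝ) ^ 2 := by
            have : k + 1 ≤ k ^ 2 := by nlinarith
            exact_mod_cast this
          have e3 := Real.log_le_log (by positivity) e2
          rw [Real.log_pow] at e3
          exact_mod_cast e3
        have e4 := hd k h2
        nlinarith
      · have e1 : l ≤ 1 := by
          have e2 : ((k + 1 : ℕ) : ℝ) ≤ 2 := by exact_mod_cast (by omega : k + 1 ≤ 2)
          have e3 := Real.log_le_sub_one_of_pos (show (0 : ℝ) < ((k + 1 : ℕ) : ℝ) by positivity)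
          linarith
        nlinarith
    have hu0 : 0 ≤ l * p := mul_nonneg hl0 hp0
    have hI0 := In_nonneg (A := A) (k + 1) ω
    have e0 : dif μ ℱ A ω (k + 1) = In A (k + 1) ω - p := rfl
    have hI2 : In A (k + 1) ω ^ 2 = In A (k + 1) ω := by
      rcases In_or (A := A) (k + 1) ω with h | h <;> rw [h] <;> norm_num
    have e1 : (l * dif μ ℱ A ω (k + 1)) ^ 2 - l ^ 2 * In A (k + 1) ω =
        -2 * (l * p) * (l * In A (k + 1) ω) + (l * p) ^ 2 := by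
      rw [e0]
      have : (l * (In A (k + 1) ω - p)) ^ 2 = l ^ 2 * In A (k + 1) ω ^ 2 - 2 * l ^ 2 * In A (k + 1) ω * p + (l * p) ^ 2 := by ring
      rw [this, hI2]
      ring
    rw [e1]
    have e2 : 0 ≤ l * In A (k + 1) ω := mul_nonneg hl0 hI0
    have e3 : l * In A (k + 1) ω ≤ Real.log x * In A (k + 1) ω := mul_le_mul_of_nonneg_right hlx hI0
    have e4 : (l * p) * (l * In A (k + 1) ω) ≤ 2 * B * (Real.log x * In A (k + 1) ω) := mul_le_mul hu e3 e2 (by linarith)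
    have e5 : (l * p) ^ 2 ≤ (2 * B) ^ 2 := pow_le_pow_left₀ hu0 hu 2
    have e6 : 0 ≤ (l * p) * (l * In A (k + 1) ω) := mul_nonneg hu0 e2
    rw [abs_le]
    constructor
    · nlinarith [sq_nonneg (l * p), sq_nonneg B]
    · nlinarith
  refine ((Finset.abs_sum_le_sum_abs _ _).trans (Finset.sum_le_sum hterm)).trans ?_
  rw [Finset.sum_add_distrib, ← Finset.mul_sum, ← Finset.mul_sum, Finset.sum_const, Finset.card_range, nsmul_eq_mul]
  have h1 := count_le (μ := μ) (ℱ := ℱ) (A := A) h01 hB hd hC hM hx hlog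
  nlinarith

lemma log3 {x : ℕ} (hx : 1 ≤ x) : Real.log x ^ 3 ≤ 216 * √(x : ℝ) := by
  have hxp : (0 : ℝ) < x := by exact_mod_cast hx
  have h1 := Real.log_le_rpow_div hxp.le (show (0 : ℝ) < 1 / 6 by norm_num)
  have h2 := pow_le_pow_left₀ (Real.log_natCast_nonneg x) h1 3
  refine h2.trans (le_of_eq ?_)
  rw [div_pow, ← Real.rpow_natCast, ← Real.rpow_mul hxp.le, Real.sqrt_eq_rpow]
  norm_num
  ring

/-- **the mean square** -/
theorem meanSq {ω : Ω} (h01 : ∀ n, 0 ≤ dens μ ℱ A n ω ∧ dens μ ℱ A n ω ≤ 1)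
    {B : ℝ} (hB : 1 ≤ B) (hd : ∀ n : ℕ, 2 ≤ n → dens μ ℱ A n ω * Real.log n ≤ B) {C : ℝ} (hC : 1 ≤ C)
    (hM : ∀ x q a : ℕ, 2 ≤ x → 1 ≤ q → q ≤ x → 1 ≤ a → a ≤ q →
      |SA (dif μ ℱ A ω) x q a| ≤ C * (√((x : ℝ) / q) + Real.log x))
    (hX : ∀ᶠ x : ℕ in atTop, ∀ q K : ℕ, 1 ≤ q → q ≤ x → 1 ≤ K → K ≤ x → ∀ s : ℝ, s = 1 ∨ s = -1 →
      Ex μ ℱ A (tt x) (wt μ ℱ A s (RR K x q) q) x ω < 5 * Real.log x ∧
      Ex μ ℱ A (-tt x) (wt μ ℱ A s (RR K x q) q) x ω < 5 * Real.log x) :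
    ∃ C' : ℝ, 0 ≤ C' ∧ ∀ᶠ x : ℕ in atTop, ∀ q : ℕ, 1 ≤ q → q ≤ x →
      |∑ a ∈ Finset.Icc 1 q, dv μ ℱ A x q a ω ^ 2 - SS A x ω| ≤ C' * ((x : ℝ) * (1 + Real.log x ^ 2 / √(q : ℝ))) := by
  obtain ⟨C1, hC1, h1⟩ := cross h01 hB hd hC hM hX
  refine ⟨C1 + 216 * C1 + (4 * B * (24 * B + 2 * C) + 4 * B ^ 2), by positivity, ?_⟩
  filter_upwards [h1, eventually_ge_atTop 16, tendsto_log.eventually_ge_atTop (1 : ℝ)] with x hx hx16 hlog q hq hqx
  have h2 := hx q hq hqx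
  have h3 := diag (μ := μ) (ℱ := ℱ) (A := A) h01 hB hd hC hM hx16 hlog
  have h4 := sq_sum (fun n => Real.log n * dif μ ℱ A ω n) hq x
  have h5 : ∑ a ∈ Finset.Icc 1 q, dv μ ℱ A x q a ω ^ 2 =
      ∑ k ∈ Finset.range x, 2 * ((Real.log ((k + 1 : ℕ) : ℝ) * dif μ ℱ A ω (k + 1)) * dv μ ℱ A k q (k + 1) ω) +
      ∑ k ∈ Finset.range x, (Real.log ((k + 1 : ℕ) : ℝ) * dif μ ℱ A ω (k + 1)) ^ 2 := by
    rw [← Finset.sum_add_distrib]
    exact h4
  rw [h5, add_sub_assoc]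
  refine (abs_add_le _ _).trans ((add_le_add h2 h3).trans ?_)
  have hxr : (16 : ℝ) ≤ x := by exact_mod_cast hx16
  have hxp : (0 : ℝ) < x := by linarith
  have h6 : √(x : ℝ) * Real.log x ^ 3 ≤ 216 * x := by
    have e1 := log3 (show 1 ≤ x by omega)
    have e2 : √(x : ℝ) * √(x : ℝ) = x := Real.mul_self_sqrt hxp.le
    nlinarith [Real.sqrt_nonneg (x : ℝ)]
  have h7 : 0 ≤ (x : ℝ) * Real.log x ^ 2 / √(q : ℝ) := by positivity
  have h8 : (x : ℝ) * (1 + Real.log x ^ 2 / √(q : ℝ)) = x + (x : ℝ) * Real.log x ^ 2 / √(q : ℝ) := by ring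
  rw [h8]
  have h9 : 0 ≤ 4 * B * (24 * B + 2 * C) + 4 * B ^ 2 := by positivity
  have h10 : C1 * (√(x : ℝ) * Real.log x ^ 3) ≤ C1 * (216 * x) := mul_le_mul_of_nonneg_left h6 hC1
  nlinarith [mul_nonneg h9 h7, mul_nonneg hC1 h7, mul_nonneg hC1 hxp.le]

end Pool.Agent.N944.MV
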