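import Mathlib
import Pool.Agent.N944.MV.C

set_option autoImplicit false
set_option linter.unusedSectionVars false
set_option linter.unusedVariables false

/-! # Mean square over the residue classes in sequential models: the main term `ψ(x) / φ(q)` -/

open MeasureTheory Filter Set
open scoped ENNReal Topology

namespace Pool.Agent.N944.MV

open Pool.Agent.R528.RM Pool.Agent.N893.SM Pool.Agent.N909.TF

variable {Ω : Type} {m0 : MeasurableSpace Ω} {μ : Measure Ω} [IsProbabilityMeasure μ]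
  {ℱ : Filtration ℕ m0} {A : ℕ → Set Ω}

/-- equidistribution of the conditional probabilities (after `SquareRootBound`) -/
lemma dens_equi (Q : Finset ℕ) (hQ : ∀ p ∈ Q, p.Prime) {ω : Ω} (h01 : ∀ n, 0 ≤ dens μ ℱ A n ω ∧ dens μ ℱ A n ω ≤ 1)
    (hzero : ∀ n, (∃ p ∈ Q, p ∣ n + 1) → dens μ ℱ A n ω = 0) {lam : ℕ → ℝ}
    (hlam : ∀ n : ℕ, 2 ≤ n → 0 ≤ lam n ∧ lam (n + 1) ≤ lam n ∧
      ((∀ p ∈ Q, ¬ p ∣ n + 1) → dens μ ℱ A n ω = lam n)) :
    ∃ C1 : ℝ, 0 ≤ C1 ∧ ∀ q a' n : ℕ, 1 ≤ q → 1 ≤ a' → a' ≤ q → Ad Q q a' →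
      |∑ k ∈ Finset.Icc 1 n, dens μ ℱ A (k - 1) ω * ((if k ≡ a' [MOD q] then 1 else 0) - 1 / phiQ Q q)| ≤ C1 := by
  classical
  set W := ∏ p ∈ Q, p with hWdef
  have hW : 0 < W := Finset.prod_pos fun q hq => (hQ q hq).pos
  have hWr : (1 : ℝ) ≤ W := by exact_mod_cast hW
  have hcopW : ∀ n : ℕ, n.Coprime W ↔ ∀ p ∈ Q, ¬ p ∣ n := fun n => coprime_prod_iff Q hQ n
  set L2 := lam 2 with hL2
  have hL20 : 0 ≤ L2 := (hlam 2 le_rfl).1
  set C1 : ℝ := (2 * (W : ℝ) ^ 2 + 2 + 2 * (1 + W)) * L2 + 2 * (1 + W) with hC1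
  have hC10 : 0 ≤ C1 := by positivity
  refine ⟨C1, hC10, fun q a' n hq g1 g2 had => ?_⟩
  have hqr : (1 : ℝ) ≤ q := by exact_mod_cast hq
  have hqp : (0 : ℝ) < q := by linarith
  obtain ⟨p1, p2⟩ := phiQ_bounds Q hQ q
  have hphi : 0 < phiQ Q q := lt_of_lt_of_le (by positivity) p1
  have hphi1 : 1 / phiQ Q q ≤ W / q := by
    rw [div_le_div_iff₀ hphi hqp, one_mul]
    rw [div_le_iff₀ (by positivity)] at p1
    linarith
  have hWq : (W : ℝ) / q ≤ W := div_le_self (by positivity) hqr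
  set f := phiQ Q q with hf
  have hmod1 : ∀ n b : ℕ, n ≡ b [MOD 1] := fun n b => Nat.modEq_one
  have hsplit : ∀ (F : ℕ → ℝ) (n : ℕ), ∑ k ∈ Finset.Icc 1 n, F k * ((if k ≡ a' [MOD q] then 1 else 0) - 1 / f) =
      SA F n q a' - SA F n 1 1 / f := by
    intro F n
    rw [SA_ite', SA_ite', Finset.sum_div, ← Finset.sum_sub_distrib]
    refine Finset.sum_congr rfl fun k _ => ?_
    rw [if_pos (hmod1 k 1)]
    split_ifs <;> ring
  set g : ℕ → ℝ := fun k => (if k ≡ a' [MOD q] then 1 else 0) - 1 / f with hg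
  have hgb : ∀ k, |g k| ≤ 1 + W := by
    intro k
    have h1 : 0 ≤ 1 / f := by positivity
    have h2 : 1 / f ≤ W := hphi1.trans hWq
    simp only [hg]
    rw [abs_le]
    split_ifs
    · constructor <;> linarith
    · constructor <;> linarith
  have hterm : ∀ k, |dens μ ℱ A (k - 1) ω * g k| ≤ 1 + W := by
    intro k
    rw [abs_mul, abs_of_nonneg (h01 _).1]
    calc dens μ ℱ A (k - 1) ω * |g k| ≤ 1 * (1 + W) := mul_le_mul (h01 _).2 (hgb k) (abs_nonneg _) zero_le_one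
      _ = _ := one_mul _
  have hCL : 0 ≤ (2 * (W : ℝ) ^ 2 + 2 + 2 * (1 + W)) * L2 := by positivity
  by_cases hn : n ≤ 2
  · have h1 : |∑ k ∈ Finset.Icc 1 n, dens μ ℱ A (k - 1) ω * g k| ≤ n * (1 + W) := by
      refine ((Finset.abs_sum_le_sum_abs _ _).trans (Finset.sum_le_sum fun k _ => hterm k)).trans ?_
      rw [Finset.sum_const, Nat.card_Icc, Nat.add_sub_cancel, nsmul_eq_mul]
    have h2 : (n : ℝ) * (1 + W) ≤ 2 * (1 + W) := mul_le_mul_of_nonneg_right (by exact_mod_cast hn) (by positivity)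
    linarith
  · push Not at hn
    obtain ⟨N, rfl⟩ : ∃ N, n = N + 2 := ⟨n - 2, by omega⟩
    have hshift : ∀ (F : ℕ → ℝ) (N : ℕ), ∑ k ∈ Finset.Icc 1 (N + 2), F k = F 1 + F 2 + ∑ k ∈ Finset.range N, F (k + 3) := by
      intro F N
      induction N with
      | zero => simp [Finset.sum_Icc_succ_top]
      | succ N ih =>
        rw [show N + 1 + 2 = (N + 2) + 1 by ring, Finset.sum_Icc_succ_top (by omega), ih, Finset.sum_range_succ]
        ring
    rw [hshift]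
    set h : ℕ → ℝ := fun k => (if k.Coprime W then 1 else 0) * g k with hh
    have e1 : ∑ k ∈ Finset.range N, dens μ ℱ A (k + 3 - 1) ω * g (k + 3) = ∑ k ∈ Finset.range N, lam (k + 2) * h (k + 3) := by
      refine Finset.sum_congr rfl fun k _ => ?_
      rw [show k + 3 - 1 = k + 2 by omega]
      simp only [hh]
      by_cases hc : (k + 3).Coprime W
      · rw [if_pos hc, one_mul]
        have := (hlam (k + 2) (by omega)).2.2 ((hcopW (k + 3)).1 hc)
        rw [this]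
      · rw [if_neg hc, zero_mul, mul_zero]
        have hex : ∃ p ∈ Q, p ∣ k + 2 + 1 := by
          by_contra hcon
          push Not at hcon
          exact hc ((hcopW (k + 3)).2 hcon)
        rw [hzero (k + 2) hex, zero_mul]
    rw [e1]
    have hhb : ∀ k, |h k| ≤ 1 + W := by
      intro k
      simp only [hh]
      rw [abs_mul]
      have : |(if k.Coprime W then (1 : ℝ) else 0)| ≤ 1 := by split_ifs <;> simp
      calc |(if k.Coprime W then (1 : ℝ) else 0)| * |g k| ≤ 1 * (1 + W) := mul_le_mul this (hgb k) (abs_nonneg _) zero_le_one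
        _ = _ := one_mul _
    have habel := abel_anti (l := fun k => lam (k + 2)) (h := fun k => h (k + 3)) (C := 2 * (W : ℝ) ^ 2 + 2 + 2 * (1 + W))
      (fun k => (hlam (k + 2) (by omega)).2.1) (fun k => (hlam (k + 2) (by omega)).1) (by positivity) N (fun n' hn' => by
        have h1 := cop_equi Q hQ hq g1 g2 had (n' + 2)
        rw [← hf, ← hWdef, ← hsplit, hshift] at h1
        have h2 := abs_le.1 h1
        have h3 := abs_le.1 (hhb 1)
        have h4 := abs_le.1 (hhb 2)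
        rw [abs_le]
        simp only [hh, hg] at h2 h3 h4 ⊢
        constructor <;> linarith)
    have h3 := hterm 1
    have h4 := hterm 2
    have h5 : |dens μ ℱ A (1 - 1) ω * g 1 + dens μ ℱ A (2 - 1) ω * g 2| ≤ 2 * (1 + W) := by
      refine (abs_add_le _ _).trans ?_
      linarith
    refine (abs_add_le _ _).trans ?_
    rw [hC1]
    simp only [Nat.zero_add] at habel
    linarith

/-- the weighted count in a class -/
noncomputable def ps (A : ℕ → Set Ω) (x q a : ℕ) (ω : Ω) : ℝ := SA (fun n => Real.log n * In A n ω) x q a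

lemma quarter {x q : ℕ} (hq : 1 ≤ q) (hqx : q * q ≤ x) : Real.log x ≤ 4 * √((x : ℝ) / q) := by
  have hq0 : (0 : ℝ) < q := by exact_mod_cast hq
  have hx1 : 1 ≤ x := le_trans (Nat.mul_pos hq hq) hqx
  have hxp : (0 : ℝ) < x := by exact_mod_cast hx1
  set y := √(√(x : ℝ)) with hy
  have hy0 : 0 < y := Real.sqrt_pos.2 (Real.sqrt_pos.2 hxp)
  have h2 : Real.log y = Real.log x / 4 := by
    rw [hy, Real.log_sqrt (Real.sqrt_nonneg _), Real.log_sqrt hxp.le]
    ring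
  have h3 := Real.log_le_sub_one_of_pos hy0
  have h4 : √(x : ℝ) ≤ x / q := by
    rw [le_div_iff₀ hq0]
    have e1 : (q : ℝ) ≤ √(x : ℝ) := by
      apply Real.le_sqrt_of_sq_le
      have : ((q * q : ℕ) : ℝ) ≤ x := by exact_mod_cast hqx
      push_cast at this
      nlinarith
    calc √(x : ℝ) * q ≤ √(x : ℝ) * √(x : ℝ) := mul_le_mul_of_nonneg_left e1 (Real.sqrt_nonneg _)
      _ = x := Real.mul_self_sqrt hxp.le
  have h5 : y ≤ √((x : ℝ) / q) := Real.sqrt_le_sqrt h4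
  linarith

open Classical in
/-- **the mean square with the main term `ψ(x) / φ(q)`** -/
theorem meanSqPsi (Q : Finset ℕ) (hQ : ∀ p ∈ Q, p.Prime) (hcop : ∀ n, (∃ p ∈ Q, p ∣ n) → A n = ∅)
    {ω : Ω} (h01 : ∀ n, 0 ≤ dens μ ℱ A n ω ∧ dens μ ℱ A n ω ≤ 1)
    (hzero : ∀ n, (∃ p ∈ Q, p ∣ n + 1) → dens μ ℱ A n ω = 0) {lam : ℕ → ℝ}
    (hlam : ∀ n : ℕ, 2 ≤ n → 0 ≤ lam n ∧ lam (n + 1) ≤ lam n ∧
      ((∀ p ∈ Q, ¬ p ∣ n + 1) → dens μ ℱ A n ω = lam n))
    {B : ℝ} (hB : 1 ≤ B) (hd : ∀ n : ℕ, 2 ≤ n → dens μ ℱ A n ω * Real.log n ≤ B) {C : ℝ} (hC : 1 ≤ C)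
    (hM : ∀ x q a : ℕ, 2 ≤ x → 1 ≤ q → q ≤ x → 1 ≤ a → a ≤ q →
      |SA (dif μ ℱ A ω) x q a| ≤ C * (√((x : ℝ) / q) + Real.log x))
    (hX : ∀ᶠ x : ℕ in atTop, ∀ q K : ℕ, 1 ≤ q → q ≤ x → 1 ≤ K → K ≤ x → ∀ s : ℝ, s = 1 ∨ s = -1 →
      Ex μ ℱ A (tt x) (wt μ ℱ A s (RR K x q) q) x ω < 5 * Real.log x ∧
      Ex μ ℱ A (-tt x) (wt μ ℱ A s (RR K x q) q) x ω < 5 * Real.log x) :
    ∃ C' : ℝ, 0 ≤ C' ∧ ∀ᶠ x : ℕ in atTop, ∀ q : ℕ, 1 ≤ q → q * q ≤ x →
      |∑ a ∈ (Finset.Icc 1 q).filter (fun a => Ad Q q a), (ps A x q a ω - ps A x 1 1 ω / phiQ Q q) ^ 2 - SS A x ω| ≤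
        C' * ((x : ℝ) * (1 + Real.log x ^ 2 / √(q : ℝ))) := by
  obtain ⟨C0, hC0, h0⟩ := meanSq h01 hB hd hC hM hX
  obtain ⟨C1, hC1, h1⟩ := dens_equi (μ := μ) (ℱ := ℱ) (A := A) Q hQ h01 hzero hlam
  set W := ∏ p ∈ Q, p with hWdef
  have hW : 0 < W := Finset.prod_pos fun q hq => (hQ q hq).pos
  have hWr : (1 : ℝ) ≤ W := by exact_mod_cast hW
  set Cd : ℝ := 2 * (C + 2) with hCd
  set C3 : ℝ := 2 * W * Cd + 2 * C1 with hC3
  have hCd0 : 0 < Cd := by rw [hCd]; linarith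
  have hC30 : 0 < C3 := by rw [hC3]; positivity
  refine ⟨C0 + (10 * Cd * C3 + C3 ^ 2), by positivity, ?_⟩
  filter_upwards [h0, eventually_ge_atTop 16, tendsto_log.eventually_ge_atTop (1 : ℝ)] with x hx hx16 hlog q hq hqq
  have hqx : q ≤ x := le_trans (Nat.le_mul_of_pos_left q hq) hqq
  have hmain := hx q hq hqx
  have hxr : (16 : ℝ) ≤ x := by exact_mod_cast hx16
  have hxp : (0 : ℝ) < x := by linarith
  have hqr : (1 : ℝ) ≤ q := by exact_mod_cast hq
  have hqp : (0 : ℝ) < q := by linarith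
  obtain ⟨p1, p2⟩ := phiQ_bounds Q hQ q
  have hphi : 0 < phiQ Q q := lt_of_lt_of_le (by positivity) p1
  have hphi1 : 1 / phiQ Q q ≤ W / q := by
    rw [div_le_div_iff₀ hphi hqp, one_mul]
    rw [div_le_iff₀ (by positivity)] at p1
    linarith
  set f := phiQ Q q with hf
  set L := Real.log (x : ℝ) with hL
  set s := √(x : ℝ) with hs
  set r := √((x : ℝ) / q) with hr
  have hs0 : 0 < s := Real.sqrt_pos.2 hxp
  have hr0 : 0 < r := Real.sqrt_pos.2 (by positivity)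
  have hLs : L ≤ s := log_le_sqrt x (by omega)
  have hLr : L ≤ 4 * r := quarter hq hqq
  have hqs : (q : ℝ) ≤ s := by
    apply Real.le_sqrt_of_sq_le
    have : ((q * q : ℕ) : ℝ) ≤ x := by exact_mod_cast hqq
    push_cast at this
    nlinarith
  have hsq1 : 1 ≤ s / q := by
    rw [le_div_iff₀ hqp, one_mul]
    exact hqs
  have hss : s * s = x := Real.mul_self_sqrt hxp.le
  have hrs : r * s = x / √(q : ℝ) := by
    rw [hr, hs, Real.sqrt_div hxp.le, div_mul_eq_mul_div, Real.mul_self_sqrt hxp.le]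
  -- the pointwise bounds
  have hu : ∀ a, |dv μ ℱ A x q a ω| ≤ 5 * Cd * (r * L) := by
    intro a
    refine (dv_bound h01 hC hM x q a (by omega) hq hqx).trans ?_
    rw [← hCd, ← hr, ← hL]
    have : L ^ 2 ≤ 4 * (r * L) := by nlinarith
    nlinarith
  set v : ℕ → ℝ := fun a => -(dv μ ℱ A x 1 1 ω / f) +
    ∑ k ∈ Finset.Icc 1 x, Real.log k * (dens μ ℱ A (k - 1) ω * ((if k ≡ a [MOD q] then 1 else 0) - 1 / f)) with hv
  have hvb : ∀ a ∈ (Finset.Icc 1 q).filter (fun a => Ad Q q a), |v a| ≤ C3 * (s * L / q) := by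
    intro a ha
    have ha1 := Finset.mem_Icc.1 (Finset.mem_filter.1 ha).1
    have ha2 := (Finset.mem_filter.1 ha).2
    have e1 : |∑ k ∈ Finset.Icc 1 x, Real.log k * (dens μ ℱ A (k - 1) ω * ((if k ≡ a [MOD q] then 1 else 0) - 1 / f))| ≤
        2 * C1 * L := abel_log hC1 (by omega) fun n _ _ => h1 q a n hq ha1.1 ha1.2 ha2
    have e2 := dv_bound (μ := μ) (ℱ := ℱ) (A := A) h01 hC hM x 1 1 (by omega) le_rfl (by omega)
    rw [← hCd, Nat.cast_one, div_one, ← hL, ← hs] at e2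
    have e3 : |-(dv μ ℱ A x 1 1 ω / f)| ≤ 2 * W * Cd * (s * L / q) := by
      rw [abs_neg, abs_div, abs_of_pos hphi]
      calc |dv μ ℱ A x 1 1 ω| / f = |dv μ ℱ A x 1 1 ω| * (1 / f) := by ring
        _ ≤ (Cd * (s * L + L ^ 2)) * (W / q) := mul_le_mul e2 hphi1 (by positivity) (by positivity)
        _ ≤ (Cd * (s * L + s * L)) * (W / q) := by
            refine mul_le_mul_of_nonneg_right (mul_le_mul_of_nonneg_left ?_ hCd0.le) (by positivity)
            nlinarith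
        _ = _ := by ring
    have e4 : 2 * C1 * L ≤ 2 * C1 * (s * L / q) := by
      refine mul_le_mul_of_nonneg_left ?_ (by linarith)
      calc L = 1 * L := (one_mul _).symm
        _ ≤ (s / q) * L := mul_le_mul_of_nonneg_right hsq1 (by linarith)
        _ = _ := by ring
    calc |v a| ≤ _ := abs_add_le _ _
      _ ≤ 2 * W * Cd * (s * L / q) + 2 * C1 * (s * L / q) := add_le_add e3 (e1.trans e4)
      _ = _ := by rw [hC3]; ring
  have hpsi : ∀ a, ps A x q a ω - ps A x 1 1 ω / f = dv μ ℱ A x q a ω + v a := by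
    intro a
    simp only [hv]
    unfold ps dv
    rw [SA_ite', SA_ite', SA_ite', SA_ite', Finset.sum_div, Finset.sum_div, ← Finset.sum_neg_distrib,
      ← Finset.sum_sub_distrib, ← Finset.sum_add_distrib, ← Finset.sum_add_distrib]
    refine Finset.sum_congr rfl fun k _ => ?_
    rw [if_pos (Nat.modEq_one (a := k) (b := 1)), if_pos (Nat.modEq_one (a := k) (b := 1))]
    unfold dif
    split_ifs <;> ring
  -- the classes which are not admissible
  have hnad : ∀ a, ¬ Ad Q q a → dv μ ℱ A x q a ω = 0 := by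
    intro a ha
    unfold Ad at ha
    push Not at ha
    obtain ⟨p, hp, hpa, hpq⟩ := ha
    unfold dv SA
    refine Finset.sum_eq_zero fun n hn => ?_
    have g1 := Finset.mem_Icc.1 (Finset.mem_filter.1 hn).1
    have g2 := (Finset.mem_filter.1 hn).2
    have g3 : p ∣ n := (Nat.ModEq.dvd_iff g2 hpq).2 hpa
    have g4 : In A n ω = 0 := by
      unfold In
      rw [hcop n ⟨p, hp, g3⟩]
      simp
    have g5 : dens μ ℱ A (n - 1) ω = 0 := hzero (n - 1) ⟨p, hp, by rwa [Nat.sub_add_cancel g1.1]⟩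
    unfold dif
    rw [g4, g5]
    ring
  have hfull : ∑ a ∈ (Finset.Icc 1 q).filter (fun a => Ad Q q a), dv μ ℱ A x q a ω ^ 2 =
      ∑ a ∈ Finset.Icc 1 q, dv μ ℱ A x q a ω ^ 2 := by
    rw [Finset.sum_filter]
    refine Finset.sum_congr rfl fun a _ => ?_
    split_ifs with h
    · rfl
    · rw [hnad a h]
      norm_num
  have hdiff : |∑ a ∈ (Finset.Icc 1 q).filter (fun a => Ad Q q a), (ps A x q a ω - ps A x 1 1 ω / f) ^ 2 -
      ∑ a ∈ Finset.Icc 1 q, dv μ ℱ A x q a ω ^ 2| ≤ (10 * Cd * C3 + C3 ^ 2) * ((x : ℝ) * (L ^ 2 / √(q : ℝ))) := by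
    rw [← hfull, ← Finset.sum_sub_distrib]
    have ht : ∀ a ∈ (Finset.Icc 1 q).filter (fun a => Ad Q q a),
        |(ps A x q a ω - ps A x 1 1 ω / f) ^ 2 - dv μ ℱ A x q a ω ^ 2| ≤
          C3 * (s * L / q) * (2 * (5 * Cd * (r * L)) + C3 * (s * L / q)) := by
      intro a ha
      rw [hpsi a]
      have e1 : (dv μ ℱ A x q a ω + v a) ^ 2 - dv μ ℱ A x q a ω ^ 2 = v a * (2 * dv μ ℱ A x q a ω + v a) := by ring
      rw [e1, abs_mul]
      have e2 := hvb a ha
      have e3 : |2 * dv μ ℱ A x q a ω + v a| ≤ 2 * (5 * Cd * (r * L)) + C3 * (s * L / q) := by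
        refine (abs_add_le _ _).trans (add_le_add ?_ e2)
        rw [abs_mul, abs_of_pos (by norm_num : (0 : ℝ) < 2)]
        exact mul_le_mul_of_nonneg_left (hu a) (by norm_num)
      exact mul_le_mul e2 e3 (abs_nonneg _) (by positivity)
    refine ((Finset.abs_sum_le_sum_abs _ _).trans (Finset.sum_le_sum ht)).trans ?_
    rw [Finset.sum_const, nsmul_eq_mul]
    have hcard : (((Finset.Icc 1 q).filter (fun a => Ad Q q a)).card : ℝ) ≤ q := by
      have := Finset.card_filter_le (Finset.Icc 1 q) (fun a => Ad Q q a)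
      rw [Nat.card_Icc, Nat.add_sub_cancel] at this
      exact_mod_cast this
    refine (mul_le_mul_of_nonneg_right hcard (by positivity)).trans ?_
    have e1 : (q : ℝ) * (C3 * (s * L / q) * (2 * (5 * Cd * (r * L)) + C3 * (s * L / q))) =
        10 * Cd * C3 * ((r * s) * L ^ 2) + C3 ^ 2 * ((s * s) * L ^ 2 / q) := by
      field_simp
      ring
    rw [e1, hrs, hss]
    have hsq0 : 0 < √(q : ℝ) := Real.sqrt_pos.2 hqp
    have e2 : (x : ℝ) * L ^ 2 / q ≤ x * L ^ 2 / √(q : ℝ) := by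
      refine div_le_div_of_nonneg_left (by positivity) hsq0 ?_
      rw [Real.sqrt_le_left hqp.le]
      nlinarith
    have e3 : C3 ^ 2 * ((x : ℝ) * L ^ 2 / q) ≤ C3 ^ 2 * (x * L ^ 2 / √(q : ℝ)) := mul_le_mul_of_nonneg_left e2 (by positivity)
    calc _ ≤ 10 * Cd * C3 * ((x : ℝ) / √(q : ℝ) * L ^ 2) + C3 ^ 2 * (x * L ^ 2 / √(q : ℝ)) := by linarith
      _ = _ := by ring
  have hfin := (abs_add_le (∑ a ∈ (Finset.Icc 1 q).filter (fun a => Ad Q q a), (ps A x q a ω - ps A x 1 1 ω / f) ^ 2 -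
      ∑ a ∈ Finset.Icc 1 q, dv μ ℱ A x q a ω ^ 2) (∑ a ∈ Finset.Icc 1 q, dv μ ℱ A x q a ω ^ 2 - SS A x ω)).trans (add_le_add hdiff hmain)
  rw [sub_add_sub_cancel] at hfin
  refine hfin.trans ?_
  have h7 : 0 ≤ 10 * Cd * C3 + C3 ^ 2 := by positivity
  nlinarith [mul_nonneg h7 hxp.le]

end Pool.Agent.N944.MV
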