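import Mathlib
import Pool.Agent.N944.MV.D
import Pool.Agent.R528.RM.TupQ

set_option autoImplicit false
set_option linter.unusedSectionVars false
set_option linter.unusedVariables false

/-! # The sum of `log² n` over the chosen integers -/

open MeasureTheory Filter Set
open scoped ENNReal Topology

namespace Pool.Agent.N944.MV

open Pool.Agent.R528.RM Pool.Agent.N893.SM Pool.Agent.N909.TF

variable {Ω : Type} {m0 : MeasurableSpace Ω} {μ : Measure Ω} [IsProbabilityMeasure μ]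
  {ℱ : Filtration ℕ m0} {A : ℕ → Set Ω}

/-- the number of the chosen integers in a sieved model -/
theorem cnt_asymp (hA : ∀ n, MeasurableSet[ℱ n] (A n)) (Q : Finset ℕ) (hQ : ∀ p ∈ Q, p.Prime)
    (hcop : ∀ n, (∃ p ∈ Q, p ∣ n) → A n = ∅)
    (hd : ∀ᵐ ω ∂μ, Tendsto (fun n : ℕ => dens μ ℱ A n ω * Real.log n)
      (atTop ⊓ 𝓟 {n : ℕ | ∀ p ∈ Q, ¬ p ∣ n + 1}) (𝓝 (∏ p ∈ Q, (1 - 1 / (p : ℝ))⁻¹))) :
    ∀ᵐ ω ∂μ, ∀ ε : ℝ, 0 < ε → ∀ᶠ x : ℕ in atTop,
      |(∑ k ∈ Finset.range x, In A (k + 1) ω) * Real.log x / x - 1| ≤ ε := by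
  filter_upwards [tup_sieved (μ := μ) hA Q hQ hcop hd] with ω hω ε hε
  filter_upwards [hω 1 ε hε] with x hx
  have h := hx {0} (by intro z hz; rw [Finset.mem_singleton] at hz; rw [hz]; simp) (by simp)
  have e1 : singH Q {0} = 1 := by
    unfold singH
    refine Finset.prod_eq_one fun p hp => ?_
    have hp2 : (2 : ℝ) ≤ p := by exact_mod_cast (hQ p hp).two_le
    have h1 : 1 / (p : ℝ) ≤ 1 / 2 := one_div_le_one_div_of_le (by norm_num) hp2
    have h2 : occ {0} p = 1 := by simp [occ]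
    rw [h2, Finset.card_singleton, pow_one, Nat.cast_one]
    exact div_self (by linarith)
  have e2 : TN A (rhoW (∏ p ∈ Q, p)) x {0} ∅ ω = ∑ k ∈ Finset.range x, In A (k + 1) ω := by
    unfold TN
    simp
  rw [e1, e2, pow_one] at h
  exact h

/-- `∑ log² n` over the chosen integers up to `x` is asymptotic to `x log x` -/
theorem SS_asymp {ω : Ω} (h : ∀ ε : ℝ, 0 < ε → ∀ᶠ x : ℕ in atTop,
      |(∑ k ∈ Finset.range x, In A (k + 1) ω) * Real.log x / x - 1| ≤ ε) {ε : ℝ} (hε : 0 < ε) (hε1 : ε ≤ 1) :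
    ∀ᶠ x : ℕ in atTop, |SS A x ω - x * Real.log x| ≤ ε * (x * Real.log x) := by
  set δ : ℝ := ε / 8 with hδ
  have hδ0 : 0 < δ := by positivity
  have t1 : Tendsto (fun x : ℕ => Real.log x * (x : ℝ) ^ (-δ)) atTop (𝓝 0) := by
    have h6 : Tendsto (fun x : ℝ => Real.log x / x ^ δ) atTop (𝓝 0) := by
      have := (isLittleO_log_rpow_rpow_atTop (1 : ℝ) hδ0).tendsto_div_nhds_zero
      simpa using this
    refine (h6.comp tendsto_natCast_atTop_atTop).congr' ?_
    filter_upwards [eventually_gt_atTop 1] with n hn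
    have hn' : (1 : ℝ) < n := by exact_mod_cast hn
    simp only [Function.comp_apply]
    rw [Real.rpow_neg (by linarith), div_eq_mul_inv]
  have t2 := t1.eventually (gt_mem_nhds hδ0)
  filter_upwards [h δ hδ0, t2, eventually_ge_atTop 16, tendsto_log.eventually_ge_atTop (1 : ℝ)] with x hx ht hx16 hlog
  have hxr : (16 : ℝ) ≤ x := by exact_mod_cast hx16
  have hxp : (0 : ℝ) < x := by linarith
  set L := Real.log (x : ℝ) with hL
  set N := ∑ k ∈ Finset.range x, In A (k + 1) ω with hN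
  have hL0 : 0 < L := by linarith
  have hx1 := abs_le.1 hx
  have hNu : N * L ≤ (1 + δ) * x := by
    have := hx1.2
    rw [sub_le_iff_le_add, div_le_iff₀ hxp] at this
    linarith
  have hNl : (1 - δ) * x ≤ N * L := by
    have := hx1.1
    rw [neg_le_sub_iff_le_add, ← sub_le_iff_le_add, le_div_iff₀ hxp] at this
    linarith
  have hNe : N = ∑ n ∈ Finset.Icc 1 x, In A n ω := (Icc_range (fun n => In A n ω) x).symm
  -- upper bound
  have hup : SS A x ω ≤ L ^ 2 * N := by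
    unfold SS
    rw [hNe, Finset.mul_sum]
    refine Finset.sum_le_sum fun n hn => ?_
    have h1 := Finset.mem_Icc.1 hn
    refine mul_le_mul_of_nonneg_right ?_ (In_nonneg n ω)
    refine pow_le_pow_left₀ (Real.log_natCast_nonneg n) (Real.log_le_log ?_ (by exact_mod_cast h1.2)) 2
    have : 0 < n := h1.1
    exact_mod_cast this
  -- lower bound
  set y : ℝ := (x : ℝ) ^ (1 - δ) with hy
  have hlow : ((1 - δ) * L) ^ 2 * (N - y) ≤ SS A x ω := by
    have hδ1 : δ ≤ 1 := by rw [hδ]; linarith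
    have h1 : ∀ n ∈ Finset.Icc 1 x, ((1 - δ) * L) ^ 2 * (In A n ω - if n ≤ ⌊y⌋₊ then 1 else 0) ≤ Real.log n ^ 2 * In A n ω := by
      intro n hn
      have h1 := Finset.mem_Icc.1 hn
      have hI0 := In_nonneg (A := A) n ω
      have hI1 := In_le (A := A) n ω
      split_ifs with hc
      · have e1 : ((1 - δ) * L) ^ 2 * (In A n ω - 1) ≤ 0 := mul_nonpos_of_nonneg_of_nonpos (sq_nonneg _) (by linarith)
        have e2 : 0 ≤ Real.log n ^ 2 * In A n ω := by positivity
        linarith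
      · rw [sub_zero]
        refine mul_le_mul_of_nonneg_right ?_ hI0
        push Not at hc
        have e1 : y < n := (Nat.lt_floor_add_one y).trans_le (by exact_mod_cast hc)
        have e2 : (1 - δ) * L ≤ Real.log n := by
          have := Real.log_le_log (Real.rpow_pos_of_pos hxp _) e1.le
          rwa [Real.log_rpow hxp] at this
        exact pow_le_pow_left₀ (mul_nonneg (by linarith) hL0.le) e2 2
    have h2 := Finset.sum_le_sum h1
    rw [← Finset.mul_sum, Finset.sum_sub_distrib, ← hNe] at h2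
    refine le_trans (mul_le_mul_of_nonneg_left ?_ (sq_nonneg _)) h2
    rw [← Finset.sum_filter, Finset.sum_const, nsmul_eq_mul, mul_one]
    have h3 : ((Finset.Icc 1 x).filter (fun n => n ≤ ⌊y⌋₊)).card ≤ ⌊y⌋₊ := by
      have : (Finset.Icc 1 x).filter (fun n => n ≤ ⌊y⌋₊) ⊆ Finset.Icc 1 ⌊y⌋₊ := by
        intro n hn
        rw [Finset.mem_filter, Finset.mem_Icc] at hn
        exact Finset.mem_Icc.2 ⟨hn.1.1, hn.2⟩
      have := Finset.card_le_card this
      rwa [Nat.card_Icc, Nat.add_sub_cancel] at this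
    have h4 : (⌊y⌋₊ : ℝ) ≤ y := Nat.floor_le (Real.rpow_nonneg hxp.le _)
    have h5 : (((Finset.Icc 1 x).filter (fun n => n ≤ ⌊y⌋₊)).card : ℝ) ≤ ⌊y⌋₊ := by exact_mod_cast h3
    linarith
  have hyx : L * y ≤ δ * x := by
    have e1 : y = x * (x : ℝ) ^ (-δ) := by
      rw [hy, sub_eq_add_neg, Real.rpow_add hxp, Real.rpow_one]
    rw [e1]
    nlinarith
  have hxL : 0 < x * L := by positivity
  have g1 : L ^ 2 * N ≤ (1 + δ) * (x * L) := by nlinarith
  have g2 : (1 - δ) ^ 2 * ((1 - 2 * δ) * (x * L)) ≤ ((1 - δ) * L) ^ 2 * (N - y) := by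
    have e1 : (1 - 2 * δ) * (x * L) ≤ L ^ 2 * (N - y) := by nlinarith
    calc (1 - δ) ^ 2 * ((1 - 2 * δ) * (x * L)) ≤ (1 - δ) ^ 2 * (L ^ 2 * (N - y)) := mul_le_mul_of_nonneg_left e1 (sq_nonneg _)
      _ = _ := by ring
  have g3 : 1 - ε ≤ (1 - δ) ^ 2 * (1 - 2 * δ) := by
    have : ε = 8 * δ := by rw [hδ]; ring
    rw [this]
    nlinarith [sq_nonneg δ, mul_nonneg hδ0.le (sq_nonneg δ), mul_nonneg hδ0.le (show 0 ≤ 1 - δ by rw [hδ]; linarith)]
  have g4 : (1 - ε) * (x * L) ≤ (1 - δ) ^ 2 * ((1 - 2 * δ) * (x * L)) := by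
    calc (1 - ε) * (x * L) ≤ ((1 - δ) ^ 2 * (1 - 2 * δ)) * (x * L) := mul_le_mul_of_nonneg_right g3 hxL.le
      _ = _ := by ring
  have g5 : (1 + δ) * (x * L) ≤ (1 + ε) * (x * L) := mul_le_mul_of_nonneg_right (by rw [hδ]; linarith) hxL.le
  rw [abs_le]
  constructor <;> nlinarith

end Pool.Agent.N944.MV
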